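import Pool.Agent.W5h93.PI.Pad

/-! Degenerate translates modulo an arbitrary number. -/

set_option autoImplicit false
set_option linter.all false

open Matrix

noncomputable section

namespace Pool.Agent.W5h93.PI

open Pool.Agent.Y109.PI

/-- simultaneous congruences modulo prime powers -/
theorem crt_pow (n : ℕ) (hn : 0 < n) (a : ℕ → ℤ) : ∃ x : ℤ, ∀ p : ℕ, p.Prime → p ∣ n →
    (x : ZMod (p ^ n.factorization p)) = a p := by
  classical
  obtain ⟨k, hk⟩ := Nat.chineseRemainderOfFinset (fun p => (a p : ZMod (p ^ n.factorization p)).val)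
    (fun p => p ^ n.factorization p) n.primeFactors
    (fun p hp => (pow_pos (Nat.prime_of_mem_primeFactors hp).pos _).ne')
    (fun p hp q hq hpq => Nat.Coprime.pow _ _ ((Nat.coprime_primes (Nat.prime_of_mem_primeFactors hp)
      (Nat.prime_of_mem_primeFactors hq)).2 hpq))
  refine ⟨k, fun p hp hpn => ?_⟩
  haveI : NeZero (p ^ n.factorization p) := ⟨(pow_pos hp.pos _).ne'⟩
  have h3 := hk p (Nat.mem_primeFactors.2 ⟨hp, hpn, hn.ne'⟩)
  have h4 := (ZMod.natCast_eq_natCast_iff _ _ _).2 h3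
  rw [Int.cast_natCast, h4]
  exact ZMod.natCast_zmod_val _

theorem crt_pow_fun {ι : Type*} (n : ℕ) (hn : 0 < n) (a : ℕ → ι → ℤ) :
    ∃ x : ι → ℤ, ∀ p : ℕ, p.Prime → p ∣ n → ∀ i, (x i : ZMod (p ^ n.factorization p)) = a p i := by
  choose x hx using fun i => crt_pow n hn (fun p => a p i)
  exact ⟨x, fun p hp hpn i => hx i p hp hpn⟩

variable {I : Type*} [Fintype I] [DecidableEq I]

/-- a degenerate translate modulo a prime power -/
theorem pow_deg (p k g : ℕ) (hp : p.Prime) (hk : 0 < k) (hg : 0 < g) (hI : Fintype.card I = 2 * g)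
    (w : Fin g → I → I → ℤ) (hord : OrdAt p g w)
    (hgood : 2 ≤ k → ∀ [Fact p.Prime], ∃ (a : Fin g → ℤ_[p]) (e f : I → ℤ_[p]), RankTwo p w a e f)
    (b : Matrix I I ℤ) (hb : Alt b) :
    ∃ (c : Fin g → ℤ) (e f : Fin (g - 1) × I → ℤ), ∀ u v,
      (((b + ∑ i, c i • dif (w i)) u v : ℤ) : ZMod (p ^ k)) =
        ((∑ i, wdg (fun u => e (i, u)) (fun u => f (i, u))) u v : ℤ) := by
  haveI : Fact p.Prime := ⟨hp⟩
  haveI : NeZero p := ⟨hp.ne_zero⟩
  rcases Nat.lt_or_ge k 2 with h2 | h2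
  · obtain rfl : k = 1 := by omega
    obtain ⟨⟨c, hc⟩, _⟩ := hord.cw hp hg hI b hb
    obtain ⟨e, f, hef⟩ := sing_decomp g hg hI (red p (b + ∑ i, c i • dif (w i)))
      ((hb.add (Alt.sum _ _ fun i => (alt_dif (w i)).smul _)).map' _) hc
    refine ⟨c, fun q => (e q.1 q.2).val, fun q => (f q.1 q.2).val, fun u v => ?_⟩
    rw [pow_one]
    have h3 : ((b + ∑ i, c i • dif (w i)) u v : ZMod p) = red p (b + ∑ i, c i • dif (w i)) u v := rfl
    rw [h3, hef, Matrix.sum_apply, Matrix.sum_apply, Int.cast_sum]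
    refine Finset.sum_congr rfl fun i _ => ?_
    simp only [wdg, Matrix.of_apply, Int.cast_sub, Int.cast_mul, vcast]
  · obtain ⟨a, e, f, ha⟩ := hgood h2
    obtain ⟨c, x, y, h⟩ := padic_deg hg hI w hord ha b hb
    haveI : NeZero (p ^ k) := ⟨(pow_pos hp.pos _).ne'⟩
    let ψ := PadicInt.toZModPow (p := p) k
    have hval : ∀ z : ℤ_[p], (((ψ z).val : ℤ) : ZMod (p ^ k)) = ψ z := by
      intro z
      rw [Int.cast_natCast]
      exact ZMod.natCast_zmod_val _
    refine ⟨fun i => ((ψ (c i)).val : ℤ), fun q => ((ψ (x q.1 q.2)).val : ℤ),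
      fun q => ((ψ (y q.1 q.2)).val : ℤ), fun u v => ?_⟩
    have h1 := congrArg ψ (congrFun (congrFun h u) v)
    have h3 : ψ ((pad p b + ∑ i, c i • pad p (dif (w i))) u v) =
        (((b + ∑ i, ((ψ (c i)).val : ℤ) • dif (w i)) u v : ℤ) : ZMod (p ^ k)) := by
      simp only [Matrix.add_apply, Matrix.sum_apply, Matrix.smul_apply, map_add, map_sum, smul_eq_mul,
        map_mul, pad, Matrix.map_apply, eq_intCast, map_intCast, Int.cast_add, Int.cast_sum, Int.cast_mul,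
        hval]
    have h4 : ψ ((∑ i, wdg (x i) (y i)) u v) =
        (((∑ i, wdg (fun u => ((ψ (x i u)).val : ℤ)) (fun u => ((ψ (y i u)).val : ℤ)) :
          Matrix I I ℤ) u v : ℤ) : ZMod (p ^ k)) := by
      simp only [Matrix.sum_apply, map_sum, wdg, Matrix.of_apply, map_sub, map_mul, Int.cast_sum,
        Int.cast_sub, Int.cast_mul, hval]
    rw [h3, h4] at h1
    exact h1

/-- a degenerate translate modulo an arbitrary number -/
theorem all_deg (n g : ℕ) (hn : 0 < n) (hg : 0 < g) (hI : Fintype.card I = 2 * g) (w : Fin g → I → I → ℤ)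
    (h : ∀ p : ℕ, p.Prime → p ∣ n → OrdAt p g w)
    (hgood : ∀ (p : ℕ) [Fact p.Prime], p ^ 2 ∣ n →
      ∃ (a : Fin g → ℤ_[p]) (e f : I → ℤ_[p]), RankTwo p w a e f)
    (b : Matrix I I ℤ) (hb : Alt b) :
    ∃ (c : Fin g → ℤ) (e f : Fin (g - 1) → I → ℤ), ∀ u v,
      (n : ℤ) ∣ (b + ∑ i, c i • dif (w i)) u v - (∑ i, wdg (e i) (f i)) u v := by
  have h1 : ∀ p : ℕ, ∃ (c : Fin g → ℤ) (e f : Fin (g - 1) × I → ℤ), p.Prime → p ∣ n → ∀ u v,
      (((b + ∑ i, c i • dif (w i)) u v : ℤ) : ZMod (p ^ n.factorization p)) =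
        ((∑ i, wdg (fun u => e (i, u)) (fun u => f (i, u))) u v : ℤ) := by
    intro p
    by_cases hp : p.Prime ∧ p ∣ n
    · obtain ⟨c, e, f, hc⟩ := pow_deg p (n.factorization p) g hp.1
        (hp.1.factorization_pos_of_dvd hn.ne' hp.2) hg hI w (h p hp.1 hp.2) (by
          intro h2 hfact
          exact hgood p ((pow_dvd_pow p h2).trans (Nat.ordProj_dvd n p))) b hb
      exact ⟨c, e, f, fun _ _ => hc⟩
    · exact ⟨0, 0, 0, fun a b => absurd ⟨a, b⟩ hp⟩
  choose a e f haef using h1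
  obtain ⟨x, hx⟩ := crt_pow_fun n hn a
  obtain ⟨y, hy⟩ := crt_pow_fun n hn e
  obtain ⟨y', hy'⟩ := crt_pow_fun n hn f
  refine ⟨x, fun i u => y (i, u), fun i u => y' (i, u), fun u v => ?_⟩
  have key : ∀ p : ℕ, p.Prime → p ∣ n → ((p ^ n.factorization p : ℕ) : ℤ) ∣
      (b + ∑ i, x i • dif (w i)) u v - (∑ i, wdg (fun u => y (i, u)) (fun u => y' (i, u))) u v := by
    intro p hp hpn
    rw [← ZMod.intCast_zmod_eq_zero_iff_dvd, Int.cast_sub, sub_eq_zero]
    have h2 : (((b + ∑ i, x i • dif (w i)) u v : ℤ) : ZMod (p ^ n.factorization p)) =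
        (((b + ∑ i, a p i • dif (w i)) u v : ℤ) : ZMod (p ^ n.factorization p)) := by
      simp only [Matrix.add_apply, Matrix.sum_apply, Matrix.smul_apply, smul_eq_mul, Int.cast_add,
        Int.cast_sum, Int.cast_mul, hx p hp hpn]
    rw [h2, haef p hp hpn]
    simp only [Matrix.sum_apply, wdg, Matrix.of_apply, Int.cast_sum, Int.cast_sub, Int.cast_mul,
      hy p hp hpn, hy' p hp hpn]
  have h3 : n ∣ ((b + ∑ i, x i • dif (w i)) u v -
      (∑ i, wdg (fun u => y (i, u)) (fun u => y' (i, u))) u v).natAbs := by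
    refine (Nat.dvd_iff_prime_pow_dvd_dvd _ _).2 fun p j hp hj => ?_
    rcases Nat.eq_zero_or_pos j with h0 | h0
    · rw [h0, pow_zero]; exact one_dvd _
    · have hpn : p ∣ n := (dvd_pow_self p h0.ne').trans hj
      have h4 := Int.natCast_dvd.1 (key p hp hpn)
      exact (pow_dvd_pow p ((hp.pow_dvd_iff_le_factorization hn.ne').1 hj)).trans h4
  exact Int.natCast_dvd.2 h3

section

variable {G B : Type*} [CommGroup G] [CommGroup B] {s : G →* G →* B}

/-- product of `g - 1` symbols modulo lower terms -/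
theorem abs_all (hanti : ∀ a b, s a b = (s b a)⁻¹) (n : ℕ) (hn : 0 < n)
    (htors : ∀ a b, s a b ^ n = 1) (ε : G)
    (H : Subgroup G) (hε : ε ∈ H) (hdiag : ∀ a, s a a = 1 ∨ s a a = s a ε) (V : Subgroup B)
    (hV : ∀ a ∈ H, ∀ b ∈ H, s a b ∈ V) (g : ℕ) (hg : 0 < g)
    (hI : Fintype.card I = 2 * g) (z : I → G) (w : Fin g → I → I → ℤ) (hw : ∀ i, Q s z (w i) ∈ low s H V z)
    (hord : ∀ p : ℕ, p.Prime → p ∣ n → OrdAt p g w)
    (hgood : ∀ (p : ℕ) [Fact p.Prime], p ^ 2 ∣ n →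
      ∃ (a : Fin g → ℤ_[p]) (e f : I → ℤ_[p]), RankTwo p w a e f)
    (α : B) (hα : α ∈ Subgroup.closure {γ | ∃ a ∈ H ⊔ Subgroup.closure (Set.range z),
      ∃ b ∈ H ⊔ Subgroup.closure (Set.range z), γ = s a b}) :
    ∃ x y : Fin (g - 1) → G, α * (∏ i, s (x i) (y i))⁻¹ ∈ low s H V z := by
  obtain ⟨w1, hw1⟩ := exists_Q hanti H V hV z α hα
  obtain ⟨c, e, f, h⟩ := all_deg n g hn hg hI w hord hgood (dif w1) (alt_dif w1)
  refine ⟨fun i => mon z (e i), fun i => mon z (f i), ?_⟩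
  have h1 := mod_low hanti n htors ε H hε hdiag V z (w1 + ∑ i, c i • w i) (g - 1) e f (by
    intro u v
    have e1 : (w1 + ∑ i, c i • w i) u v - (w1 + ∑ i, c i • w i) v u = (dif w1 + ∑ i, c i • dif (w i)) u v := by
      rw [← dif_comb]
      simp only [Pi.add_apply, Matrix.add_apply, Matrix.of_apply, dif]
      ring
    rw [e1]
    exact h u v)
  rw [Q_add, Q_comb] at h1
  have hw0 : ∏ i, Q s z (w i) ^ c i ∈ low s H V z :=
    Subgroup.prod_mem _ fun i _ => Subgroup.zpow_mem _ (hw i) _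
  have h3 := Subgroup.mul_mem _ (Subgroup.mul_mem _ hw1 h1) (Subgroup.inv_mem _ hw0)
  have e1 : ∀ p q r : B, α * p⁻¹ * (p * q * r) * q⁻¹ = α * r := by
    intro p q r
    calc α * p⁻¹ * (p * q * r) * q⁻¹ = α * r * (p * p⁻¹) * (q * q⁻¹) := by
          simp only [mul_assoc, mul_comm, mul_left_comm]
      _ = α * r := by rw [mul_inv_cancel, mul_inv_cancel, mul_one, mul_one]
  rw [e1] at h3
  exact h3

end

end Pool.Agent.W5h93.PI
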