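import Pool.Agent.Y109.PI.RM

/-! The number of degenerate members of a translate of an ordinary space of alternating matrices. -/

set_option autoImplicit false
set_option linter.all false

open Matrix MvPolynomial

noncomputable section

namespace Pool.Agent.W5h93.PI

open Pool.Agent.Y109.PI Pool.Agent.Helper929

variable {p : ℕ} [hp : Fact p.Prime]

/-- the number of degenerate members of a translate is prime to `p` -/
theorem cw_card (g : ℕ) (hg : 0 < g) (b : Matrix (Fin (2 * g)) (Fin (2 * g)) (ZMod p)) (hb : Alt b)
    (j : Fin g → Matrix (Fin (2 * g)) (Fin (2 * g)) (ZMod p)) (hj : ∀ i, Alt (j i))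
    (hcount : ¬ p ∣ (Finset.univ.filter fun c : Fin g → ZMod p => (∑ i, c i • j i).det = 0).card) :
    ¬ p ∣ (Finset.univ.filter fun c : Fin g → ZMod p => (b + ∑ i, c i • j i).det = 0).card := by
  classical
  let f : MvPolynomial (Option (Fin g)) (ZMod p) :=
    pf (2 * g) (Matrix.of fun u v => C (b u v) * X none + ∑ i, C (j i u v) * X (some i))
  have hf : f.IsHomogeneous g := by
    refine hom_pf g _ fun u v => ?_
    simp only [Matrix.of_apply]
    refine IsHomogeneous.add ?_ (IsHomogeneous.sum _ _ _ fun i _ => ?_)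
    · have := (isHomogeneous_C (Option (Fin g)) (b u v)).mul (isHomogeneous_X (ZMod p) (none : Option (Fin g)))
      rwa [zero_add] at this
    · have := (isHomogeneous_C (Option (Fin g)) (j i u v)).mul (isHomogeneous_X (ZMod p) (some i))
      rwa [zero_add] at this
  have heval : ∀ x : Option (Fin g) → ZMod p, eval x f = pf (2 * g) (x none • b + ∑ i, x (some i) • j i) := by
    intro x
    simp only [f]
    rw [pf_map (eval x)]
    congr 1
    ext u v
    simp only [Matrix.map_apply, Matrix.of_apply, map_add, map_mul, eval_C, eval_X, map_sum, Matrix.add_apply,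
      Matrix.smul_apply, Matrix.sum_apply, smul_eq_mul]
    rw [mul_comm]
    congr 1
    exact Finset.sum_congr rfl fun i _ => mul_comm _ _
  have hcw : p ∣ (Finset.univ.filter fun x : Option (Fin g) → ZMod p => eval x f = 0).card := by
    have h1 : f.totalDegree < Fintype.card (Option (Fin g)) := by
      rw [Fintype.card_option, Fintype.card_fin]
      exact Nat.lt_succ_of_le hf.totalDegree_le
    have h2 := char_dvd_card_solutions p h1
    rwa [Fintype.card_subtype] at h2
  rw [card_fiber, Finset.sum_eq_add_sum_sdiff_singleton_of_mem (Finset.mem_univ (0 : ZMod p))] at hcw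
  have halt : ∀ (w : ZMod p) (c : Fin g → ZMod p), Alt (w • b + ∑ i, c i • j i) := fun w c =>
    (hb.smul w).add (Alt.sum _ _ fun i => (hj i).smul _)
  have hfib : ∀ (w : ZMod p) (c : Fin g → ZMod p), (eval (fun o : Option (Fin g) => Option.elim o w c) f = 0) ↔
      (w • b + ∑ i, c i • j i).det = 0 := by
    intro w c
    rw [heval, det_zero_iff _ (halt w c)]
    rfl
  simp only [hfib] at hcw
  have h0 : (Finset.univ.filter fun c : Fin g → ZMod p => ((0 : ZMod p) • b + ∑ i, c i • j i).det = 0) =
      Finset.univ.filter fun c : Fin g → ZMod p => (∑ i, c i • j i).det = 0 := by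
    refine Finset.filter_congr fun c _ => ?_
    rw [zero_smul, zero_add]
  rw [h0] at hcw
  intro hdvd
  apply hcount
  refine (Nat.dvd_add_left ?_).1 hcw
  refine Finset.dvd_sum fun w hw => ?_
  rw [Finset.mem_sdiff, Finset.mem_singleton] at hw
  have h1 : (Finset.univ.filter fun c : Fin g → ZMod p => (w • b + ∑ i, c i • j i).det = 0).card =
      (Finset.univ.filter fun c : Fin g → ZMod p => (b + ∑ i, c i • j i).det = 0).card := by
    refine Finset.card_nbij' (fun c => w⁻¹ • c) (fun c => w • c) ?_ ?_ ?_ ?_
    · intro c hc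
      simp only [Finset.coe_filter, Finset.mem_univ, true_and, Set.mem_setOf_eq] at hc ⊢
      have e1 : b + ∑ i, (w⁻¹ • c) i • j i = w⁻¹ • (w • b + ∑ i, c i • j i) := by
        rw [smul_add, smul_smul, inv_mul_cancel₀ hw.2, one_smul, Finset.smul_sum]
        simp only [smul_smul, Pi.smul_apply, smul_eq_mul]
      rw [e1, Matrix.det_smul, hc, mul_zero]
    · intro c hc
      simp only [Finset.coe_filter, Finset.mem_univ, true_and, Set.mem_setOf_eq] at hc ⊢
      have e1 : w • b + ∑ i, (w • c) i • j i = w • (b + ∑ i, c i • j i) := by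
        rw [smul_add, Finset.smul_sum]
        simp only [smul_smul, Pi.smul_apply, smul_eq_mul]
      rw [e1, Matrix.det_smul, hc, mul_zero]
    · intro c _
      beta_reduce
      rw [smul_smul, mul_inv_cancel₀ hw.2, one_smul]
    · intro c _
      beta_reduce
      rw [smul_smul, inv_mul_cancel₀ hw.2, one_smul]
  rw [h1]
  exact hdvd

/-- the same for an arbitrary index type -/
theorem cw_cardI {I : Type*} [Fintype I] [DecidableEq I] (g : ℕ) (hg : 0 < g) (hI : Fintype.card I = 2 * g)
    (b : Matrix I I (ZMod p)) (hb : Alt b) (j : Fin g → Matrix I I (ZMod p)) (hj : ∀ i, Alt (j i))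
    (hcount : ¬ p ∣ (Finset.univ.filter fun c : Fin g → ZMod p => (∑ i, c i • j i).det = 0).card) :
    ¬ p ∣ (Finset.univ.filter fun c : Fin g → ZMod p => (b + ∑ i, c i • j i).det = 0).card := by
  let e : Fin (2 * g) ≃ I := (finCongr hI.symm).trans (Fintype.equivFin I).symm
  have h1 : ∀ c : Fin g → ZMod p, (∑ i, c i • (j i).submatrix e e) = (∑ i, c i • j i).submatrix e e := by
    intro c
    ext u v
    simp only [Matrix.sum_apply, Matrix.smul_apply, Matrix.submatrix_apply]
  have h2 : ∀ c : Fin g → ZMod p, (b.submatrix e e + ∑ i, c i • (j i).submatrix e e) =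
      (b + ∑ i, c i • j i).submatrix e e := by
    intro c
    rw [h1]
    rfl
  have halt : ∀ a : Matrix I I (ZMod p), Alt a → Alt (a.submatrix e e) := fun a ha =>
    ⟨fun u => ha.1 _, fun u v => ha.2 _ _⟩
  have h3 := cw_card g hg (b.submatrix e e) (halt b hb) (fun i => (j i).submatrix e e) (fun i => halt _ (hj i)) (by
    simp only [h1, Matrix.det_submatrix_equiv_self]
    exact hcount)
  simp only [h2, Matrix.det_submatrix_equiv_self] at h3
  exact h3

/-- a set of vectors which is invariant under the translations by the multiples of a vector `a ≠ 0` has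
a number of elements divisible by `p` -/
theorem dvd_card_of_invariant {g : ℕ} (a : Fin g → ZMod p) (ha : a ≠ 0) (S : Finset (Fin g → ZMod p))
    (hS : ∀ c ∈ S, ∀ t : ZMod p, c + t • a ∈ S) : p ∣ S.card := by
  classical
  haveI : NeZero p := ⟨hp.out.ne_zero⟩
  obtain ⟨i, hi⟩ : ∃ i, a i ≠ 0 := by
    by_contra h
    push Not at h
    exact ha (funext h)
  have h1 : S.card = ((S.filter fun c => c i = 0) ×ˢ (Finset.univ : Finset (ZMod p))).card := by
    refine Finset.card_nbij' (fun c => (c + (-(c i / a i)) • a, c i / a i)) (fun q => q.1 + q.2 • a)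
      ?_ ?_ ?_ ?_
    · intro c hc
      simp only [Finset.coe_product, Finset.coe_filter, Finset.coe_univ, Set.mem_prod, Set.mem_setOf_eq,
        Set.mem_univ, and_true]
      refine ⟨hS c hc _, ?_⟩
      rw [Pi.add_apply, Pi.smul_apply, smul_eq_mul, neg_mul, div_mul_cancel₀ _ hi, add_neg_cancel]
    · intro q hq
      simp only [Finset.coe_product, Finset.coe_filter, Finset.coe_univ, Set.mem_prod, Set.mem_setOf_eq,
        Set.mem_univ, and_true] at hq
      exact hS _ hq.1 _
    · intro c hc
      beta_reduce
      rw [neg_smul, neg_add_cancel_right]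
    · intro q hq
      simp only [Finset.coe_product, Finset.coe_filter, Finset.coe_univ, Set.mem_prod, Set.mem_setOf_eq,
        Set.mem_univ, and_true] at hq
      have h2 : (q.1 + q.2 • a) i / a i = q.2 := by
        rw [Pi.add_apply, hq.2, zero_add, Pi.smul_apply, smul_eq_mul, mul_div_cancel_right₀ _ hi]
      ext1
      · change q.1 + q.2 • a + (-((q.1 + q.2 • a) i / a i)) • a = q.1
        rw [h2, neg_smul, add_neg_cancel_right]
      · exact h2
  rw [h1, Finset.card_product, Finset.card_univ, ZMod.card]
  exact Dvd.intro_left _ rfl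

/-- a line in the direction `a` which contains a degenerate and a nondegenerate member -/
theorem exists_line {I : Type*} [Fintype I] [DecidableEq I] (g : ℕ) (hg : 0 < g)
    (hI : Fintype.card I = 2 * g) (b : Matrix I I (ZMod p)) (hb : Alt b) (j : Fin g → Matrix I I (ZMod p))
    (hj : ∀ i, Alt (j i))
    (hcount : ¬ p ∣ (Finset.univ.filter fun c : Fin g → ZMod p => (∑ i, c i • j i).det = 0).card)
    (a : Fin g → ZMod p) (ha : a ≠ 0) :
    ∃ (c : Fin g → ZMod p) (t : ZMod p), (b + ∑ i, c i • j i).det ≠ 0 ∧
      (b + ∑ i, (c + t • a) i • j i).det = 0 := by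
  classical
  by_contra hcon
  push Not at hcon
  refine cw_cardI g hg hI b hb j hj hcount (dvd_card_of_invariant a ha _ fun c hc t => ?_)
  simp only [Finset.mem_filter, Finset.mem_univ, true_and] at hc ⊢
  by_contra h1
  have h2 := hcon (c + t • a) (-t) h1
  apply h2
  have h3 : c + t • a + -t • a = c := by rw [neg_smul, add_neg_cancel_right]
  rw [h3]
  exact hc

end Pool.Agent.W5h93.PI
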