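import Pool.Agent.W5h93.PI.Count

/-! Degenerate translates over the ring of `p`-adic integers. -/

set_option autoImplicit false
set_option linter.all false

open Matrix

noncomputable section

namespace Pool.Agent.W5h93.PI

open Pool.Agent.Y109.PI

section

variable {R : Type*} [CommRing R] {I : Type*} [Fintype I] [DecidableEq I]

theorem wdg_mulVec (e f y : I → R) : wdg e f *ᵥ y = (f ⬝ᵥ y) • e - (e ⬝ᵥ y) • f := by
  funext v
  simp only [mulVec, dotProduct, wdg, Matrix.of_apply, Pi.sub_apply, Pi.smul_apply, smul_eq_mul,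
    Finset.sum_mul, ← Finset.sum_sub_distrib]
  exact Finset.sum_congr rfl fun w _ => by ring

/-- a degenerate member of a pencil -/
theorem mulVec_eq_zero {B : Matrix I I R} (hB : Alt B) {e f x : I → R} (hx : B *ᵥ x = e) {t : R}
    (ht : t * (f ⬝ᵥ x) = -1) : (B + t • wdg e f) *ᵥ x = 0 := by
  have h1 : e ⬝ᵥ x = 0 := by
    rw [← hx, dotProduct_comm]
    exact alt_dot_self hB x
  rw [Matrix.add_mulVec, Matrix.smul_mulVec, wdg_mulVec, h1, zero_smul, sub_zero, hx, smul_smul, ht,
    neg_one_smul, add_neg_cancel]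

/-- nondegenerate pencils -/
theorem det_ne_zero_of_dot {F : Type*} [Field F] {B : Matrix I I F} (hB : Alt B) (hdet : B.det ≠ 0)
    {e f x : I → F} (hx : B *ᵥ x = e) (h0 : f ⬝ᵥ x = 0) (t : F) : (B + t • wdg e f).det ≠ 0 := by
  intro hcon
  obtain ⟨y, hy0, hy⟩ := Matrix.exists_mulVec_eq_zero_iff.2 hcon
  have hu : IsUnit B.det := isUnit_iff_ne_zero.2 hdet
  set z := B⁻¹ *ᵥ f with hz
  have hBz : B *ᵥ z = f := by
    rw [hz, Matrix.mulVec_mulVec, Matrix.mul_nonsing_inv _ hu, Matrix.one_mulVec]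
  have h1 : e ⬝ᵥ x = 0 := by
    rw [← hx, dotProduct_comm]
    exact alt_dot_self hB x
  have h2 : f ⬝ᵥ z = 0 := by
    rw [← hBz, dotProduct_comm]
    exact alt_dot_self hB z
  have h3 : e ⬝ᵥ z = 0 := by
    rw [← hx, dotProduct_comm, alt_dot hB, hBz, dotProduct_comm, h0, neg_zero]
  have h4 : y = -(t • ((f ⬝ᵥ y) • x - (e ⬝ᵥ y) • z)) := by
    have h5 : B *ᵥ (y + t • ((f ⬝ᵥ y) • x - (e ⬝ᵥ y) • z)) = 0 := by
      rw [Matrix.mulVec_add, Matrix.mulVec_smul, Matrix.mulVec_sub, Matrix.mulVec_smul,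
        Matrix.mulVec_smul, hx, hBz, ← wdg_mulVec, ← Matrix.smul_mulVec, ← Matrix.add_mulVec]
      exact hy
    have h6 : y + t • ((f ⬝ᵥ y) • x - (e ⬝ᵥ y) • z) = 0 := by
      have h7 := congrArg (fun q => B⁻¹ *ᵥ q) h5
      beta_reduce at h7
      rw [Matrix.mulVec_mulVec, Matrix.nonsing_inv_mul _ hu, Matrix.one_mulVec, Matrix.mulVec_zero] at h7
      exact h7
    exact eq_neg_of_add_eq_zero_left h6
  have h5 : f ⬝ᵥ y = 0 := by
    rw [h4]
    rw [dotProduct_neg, dotProduct_smul, dotProduct_sub, dotProduct_smul, dotProduct_smul, h0, h2]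
    simp
  have h6 : e ⬝ᵥ y = 0 := by
    rw [h4]
    rw [dotProduct_neg, dotProduct_smul, dotProduct_sub, dotProduct_smul, dotProduct_smul, h1, h3]
    simp
  apply hy0
  rw [h4, h5, h6, zero_smul, zero_smul, sub_zero, smul_zero, neg_zero]

/-- degenerate alternating matrices over a principal ideal domain -/
theorem sing_decomp' {R : Type*} [CommRing R] [IsDomain R] [IsPrincipalIdealRing R] (K : Type*) [Field K]
    [Algebra R K] (hinj : Function.Injective (algebraMap R K)) (g : ℕ) (hg : 0 < g)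
    (hI : Fintype.card I = 2 * g) (B : Matrix I I R) (hB : Alt B) (hdet : B.det = 0) :
    ∃ e f : Fin (g - 1) → I → R, B = ∑ i, wdg (e i) (f i) := by
  refine decomp (K := K) hinj (g - 1) B hB ?_
  have hdet' : (B.map (algebraMap R K)).det = 0 := by
    have := RingHom.map_det (algebraMap R K) B
    rw [hdet, map_zero] at this
    exact this.symm
  obtain ⟨v, hv0, hv⟩ := Matrix.exists_mulVec_eq_zero_iff.2 hdet'
  have h1 : 0 < Module.finrank K (LinearMap.ker (B.map (algebraMap R K)).mulVecLin) := by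
    rw [Module.finrank_pos_iff_exists_ne_zero]
    exact ⟨⟨v, hv⟩, fun h => hv0 (congrArg Subtype.val h)⟩
  have h2 := LinearMap.finrank_range_add_finrank_ker (B.map (algebraMap R K)).mulVecLin
  rw [Module.finrank_fintype_fun_eq_card, hI] at h2
  rw [Matrix.rank]
  omega

end

section

variable {I : Type*} [Fintype I] [DecidableEq I] {p : ℕ} [hp : Fact p.Prime]

/-- an integral matrix over the `p`-adic integers -/
def pad (p : ℕ) [Fact p.Prime] (b : Matrix I I ℤ) : Matrix I I ℤ_[p] := b.map (Int.castRingHom ℤ_[p])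

theorem pad_red (b : Matrix I I ℤ) : (pad p b).map (PadicInt.toZMod (p := p)) = red p b := by
  ext u v
  simp only [pad, red, Matrix.map_apply, eq_intCast, map_intCast]

/-- the rank two class at `p` -/
structure RankTwo (p : ℕ) [Fact p.Prime] {g : ℕ} (w : Fin g → I → I → ℤ) (a : Fin g → ℤ_[p])
    (e f : I → ℤ_[p]) : Prop where
  unit : ∃ i, IsUnit (a i)
  eq : ∀ u v, ∑ i, a i * ((w i u v - w i v u : ℤ) : ℤ_[p]) = e u * f v - f u * e v

/-- **Degenerate translates over the `p`-adic integers.** -/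
theorem padic_deg {g : ℕ} (hg : 0 < g) (hI : Fintype.card I = 2 * g) (w : Fin g → I → I → ℤ)
    (hord : OrdAt p g w) {a : Fin g → ℤ_[p]} {e f : I → ℤ_[p]} (ha : RankTwo p w a e f)
    (b : Matrix I I ℤ) (hb : Alt b) :
    ∃ (c : Fin g → ℤ_[p]) (x y : Fin (g - 1) → I → ℤ_[p]),
      pad p b + ∑ i, c i • pad p (dif (w i)) = ∑ i, wdg (x i) (y i) := by
  classical
  haveI : NeZero p := ⟨hp.out.ne_zero⟩
  let φ := PadicInt.toZMod (p := p)
  have hunit : ∀ x : ℤ_[p], φ x ≠ 0 → IsUnit x := by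
    intro x hx
    by_contra h
    apply hx
    have h1 : x ∈ IsLocalRing.maximalIdeal ℤ_[p] := h
    rw [← PadicInt.ker_toZMod] at h1
    exact h1
  have hunit' : ∀ x : ℤ_[p], IsUnit x → φ x ≠ 0 := fun x hx => (hx.map φ).ne_zero
  have ha0 : (fun i => φ (a i)) ≠ 0 := by
    obtain ⟨i, hi⟩ := ha.unit
    intro h
    exact hunit' _ hi (congrFun h i)
  obtain ⟨c, t, hc, ht⟩ := exists_line g hg hI (red p b) (hb.map' _) (fun i => red p (dif (w i)))
    (fun i => (alt_dif (w i)).map' _) (by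
      rw [OrdAt, Nat.card_eq_fintype_card, Fintype.card_subtype] at hord
      exact hord) _ ha0
  -- the lift
  have hval : ∀ z : ZMod p, φ ((z.val : ℕ) : ℤ_[p]) = z := by
    intro z
    rw [map_natCast]
    exact ZMod.natCast_zmod_val z
  let C : Fin g → ℤ_[p] := fun i => (((c i).val : ℕ) : ℤ_[p])
  have hC : ∀ i, φ (C i) = c i := fun i => hval (c i)
  have hmap : ∀ D : Fin g → ℤ_[p], (pad p b + ∑ i, D i • pad p (dif (w i))).map φ =
      red p b + ∑ i, φ (D i) • red p (dif (w i)) := by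
    intro D
    ext u v
    simp only [Matrix.map_apply, Matrix.add_apply, Matrix.sum_apply, Matrix.smul_apply, map_add,
      map_sum, smul_eq_mul, map_mul, pad, red, eq_intCast, map_intCast]
  have hwdg : ∀ s : ℤ_[p], pad p b + ∑ i, (C i + s * a i) • pad p (dif (w i)) =
      pad p b + ∑ i, C i • pad p (dif (w i)) + s • wdg e f := by
    intro s
    ext u v
    simp only [Matrix.add_apply, Matrix.sum_apply, Matrix.smul_apply, smul_eq_mul, add_mul,
      Finset.sum_add_distrib, add_assoc]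
    congr 2
    have h1 := ha.eq u v
    simp only [wdg, Matrix.of_apply, ← h1, Finset.mul_sum, pad, dif, Matrix.map_apply, eq_intCast,
      mul_assoc]
  set B := pad p b + ∑ i, C i • pad p (dif (w i)) with hB
  have hBalt : Alt B := (hb.map' _).add (Alt.sum _ _ fun i => ((alt_dif (w i)).map' _).smul _)
  have hdet : IsUnit B.det := by
    apply hunit
    have h1 := RingHom.map_det φ B
    rw [h1]
    have h2 : φ.mapMatrix B = red p b + ∑ i, c i • red p (dif (w i)) := by
      rw [RingHom.mapMatrix_apply, hB, hmap]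
      simp only [hC]
    rw [h2]
    exact hc
  set x := B⁻¹ *ᵥ e with hx
  have hBx : B *ᵥ x = e := by
    rw [hx, Matrix.mulVec_mulVec, Matrix.mul_nonsing_inv _ hdet, Matrix.one_mulVec]
  have hκ : IsUnit (f ⬝ᵥ x) := by
    apply hunit
    intro h0
    have hBφ : B.map φ = red p b + ∑ i, c i • red p (dif (w i)) := by
      rw [hB, hmap]
      simp only [hC]
    have h2 : (B.map φ) *ᵥ (fun i => φ (x i)) = fun i => φ (e i) := by
      rw [← hBx]
      funext i
      simp only [mulVec, dotProduct, Matrix.map_apply, map_sum, map_mul]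
    have h3 : (fun i => φ (f i)) ⬝ᵥ (fun i => φ (x i)) = 0 := by
      rw [← h0]
      simp only [dotProduct, map_sum, map_mul]
    have h4 : (B.map φ).det ≠ 0 := by rw [hBφ]; exact hc
    have h5 := det_ne_zero_of_dot (hBalt.map' φ) h4 h2 h3 t
    apply h5
    have h6 : B.map φ + t • wdg (fun i => φ (e i)) (fun i => φ (f i)) =
        red p b + ∑ i, (c + t • fun i => φ (a i)) i • red p (dif (w i)) := by
      have h7 := hwdg ((t.val : ℕ) : ℤ_[p])
      have h8 := congrArg (fun M : Matrix I I ℤ_[p] => M.map φ) h7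
      beta_reduce at h8
      rw [hmap] at h8
      have h9 : (B + ((t.val : ℕ) : ℤ_[p]) • wdg e f).map φ =
          B.map φ + t • wdg (fun i => φ (e i)) (fun i => φ (f i)) := by
        ext u v
        simp only [Matrix.map_apply, Matrix.add_apply, Matrix.smul_apply, smul_eq_mul, map_add, map_mul,
          hval, wdg, Matrix.of_apply, map_sub]
      rw [h9] at h8
      rw [← h8]
      congr 1
      refine Finset.sum_congr rfl fun i _ => ?_
      congr 1
      simp only [map_add, map_mul, hC, hval, Pi.add_apply, Pi.smul_apply, smul_eq_mul]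
    rw [h6]
    exact ht
  obtain ⟨κ, hκ'⟩ := hκ
  have hs : (-(κ⁻¹ : ℤ_[p]ˣ) : ℤ_[p]) * (f ⬝ᵥ x) = -1 := by
    rw [← hκ', neg_mul, Units.inv_mul]
  have hker := mulVec_eq_zero hBalt (f := f) hBx hs
  have hx0 : x ≠ 0 := by
    intro h
    rw [h, dotProduct_zero] at hκ'
    exact κ.ne_zero hκ'
  have hdet0 : (B + (-(κ⁻¹ : ℤ_[p]ˣ) : ℤ_[p]) • wdg e f).det = 0 :=
    Matrix.exists_mulVec_eq_zero_iff.1 ⟨x, hx0, hker⟩
  obtain ⟨X, Y, hXY⟩ := sing_decomp' ℚ_[p] (IsFractionRing.injective ℤ_[p] ℚ_[p]) g hg hI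
    (B + (-(κ⁻¹ : ℤ_[p]ˣ) : ℤ_[p]) • wdg e f) (hBalt.add ((alt_wdg e f).smul _)) hdet0
  refine ⟨fun i => C i + (-(κ⁻¹ : ℤ_[p]ˣ) : ℤ_[p]) * a i, X, Y, ?_⟩
  rw [hwdg, hXY]

end

end Pool.Agent.W5h93.PI
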