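import Pool.Agent.W5h93.PI.All

/-! Real multiplication: places of degree one. -/

set_option autoImplicit false
set_option linter.all false

open Matrix

noncomputable section

namespace Pool.Agent.W5h93.PI

open Pool.Agent.Y109.PI

universe v

variable {O : Type v} [CommRing O] {g : ℕ} (ε : Module.Basis (Fin g) ℤ O) {p : ℕ} [hp : Fact p.Prime]

/-- A place of degree one gives a class of rank two. -/
theorem rm_two (hd : ¬ (p : ℤ) ∣ Algebra.discr ℤ ε) (φ : O →+* ℤ_[p]) :
    ∃ (a : Fin g → ℤ_[p]) (e f : Fin g ⊕ Fin g → ℤ_[p]), RankTwo p (rmw ε) a e f := by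
  classical
  let D : Matrix (Fin g) (Fin g) ℤ_[p] := (Algebra.traceMatrix ℤ ε).map (Int.castRingHom ℤ_[p])
  have hD : IsUnit D.det := by
    have h1 : D.det = ((Algebra.discr ℤ ε : ℤ) : ℤ_[p]) := by
      have h := RingHom.map_det (Int.castRingHom ℤ_[p]) (Algebra.traceMatrix ℤ ε)
      rw [eq_intCast] at h
      rw [Algebra.discr_def, h]
      rfl
    rw [h1]
    by_contra h2
    apply hd
    have h3 : ((Algebra.discr ℤ ε : ℤ) : ℤ_[p]) ∈ IsLocalRing.maximalIdeal ℤ_[p] := h2
    rw [← PadicInt.ker_toZMod, RingHom.mem_ker, map_intCast] at h3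
    exact (ZMod.intCast_zmod_eq_zero_iff_dvd _ _).1 h3
  let a : Fin g → ℤ_[p] := D⁻¹ *ᵥ fun l => φ (ε l)
  have ha1 : ∀ l, ∑ i, a i * ((Algebra.trace ℤ O (ε i * ε l) : ℤ) : ℤ_[p]) = φ (ε l) := by
    intro l
    have h1 : D *ᵥ a = fun l => φ (ε l) := by
      rw [Matrix.mulVec_mulVec, Matrix.mul_nonsing_inv _ hD, Matrix.one_mulVec]
    have h2 := congrFun h1 l
    rw [← h2]
    simp only [mulVec, dotProduct, D, Matrix.map_apply, Algebra.traceMatrix_apply, Algebra.traceForm_apply,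
      eq_intCast]
    refine Finset.sum_congr rfl fun i _ => ?_
    rw [mul_comm (ε i), mul_comm]
  have ha : ∀ x : O, ∑ i, a i * ((Algebra.trace ℤ O (ε i * x) : ℤ) : ℤ_[p]) = φ x := by
    intro x
    conv_rhs => rw [← ε.sum_repr x, map_sum]
    have h1 : ∀ i, ((Algebra.trace ℤ O (ε i * x) : ℤ) : ℤ_[p]) =
        ∑ l, ((ε.repr x l : ℤ) : ℤ_[p]) * ((Algebra.trace ℤ O (ε i * ε l) : ℤ) : ℤ_[p]) := by
      intro i
      have h2 : ε i * x = ∑ l, ε.repr x l • (ε i * ε l) := by
        conv_lhs => rw [← ε.sum_repr x]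
        rw [Finset.mul_sum]
        exact Finset.sum_congr rfl fun l _ => mul_smul_comm _ _ _
      rw [h2, map_sum, Int.cast_sum]
      refine Finset.sum_congr rfl fun l _ => ?_
      rw [map_zsmul, smul_eq_mul, Int.cast_mul]
    simp only [h1, Finset.mul_sum]
    rw [Finset.sum_comm]
    refine Finset.sum_congr rfl fun l _ => ?_
    rw [map_zsmul, ← ha1 l, zsmul_eq_mul, Finset.mul_sum]
    exact Finset.sum_congr rfl fun i _ => by ring
  refine ⟨a, Sum.elim (fun k => φ (ε k)) (fun _ => 0), Sum.elim (fun _ => 0) (fun l => φ (ε l)), ?_, ?_⟩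
  · by_contra hcon
    push Not at hcon
    have h1 : φ 1 ∈ IsLocalRing.maximalIdeal ℤ_[p] := by
      rw [← ha 1]
      exact Ideal.sum_mem _ fun i _ => Ideal.mul_mem_right _ _ (hcon i)
    rw [map_one] at h1
    exact (Ideal.ne_top_iff_one _).1 (IsLocalRing.maximalIdeal.isMaximal ℤ_[p]).ne_top h1
  · have hT : ∀ k l, ∑ i, a i * ((Algebra.trace ℤ O (ε i * ε k * ε l) : ℤ) : ℤ_[p]) = φ (ε k) * φ (ε l) := by
      intro k l
      rw [← map_mul, ← ha (ε k * ε l)]
      exact Finset.sum_congr rfl fun i _ => by rw [mul_assoc]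
    intro u v
    rcases u with k | k <;> rcases v with l | l
    · simp [rmw]
    · simp [rmw, hT]
    · simp only [rmw, Sum.elim_inl, Sum.elim_inr, zero_sub, Int.cast_neg, mul_neg, Finset.sum_neg_distrib,
        hT, zero_mul]
      ring
    · simp [rmw]

end Pool.Agent.W5h93.PI
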